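import Pool.Agent.H34CT.Tower

/-!
# Hadamard matrices of order `2 w ^ i (w + 1)`, `w = v ^ 2 ^ (j + 1)`, for all integers `v = -1`
modulo a large power of two

No primality is assumed. The orders are four times an odd number. If `v + 1` is divisible by a
large power of two there is a skew-Hadamard matrix of order `v + 1` (asymptotic existence theorem of
the starting files), hence a symmetric core `B` of order `w`. If `M`, `N` are commuting symmetric
matrices with complementary supports, `M ^ 2 = w ^ (i + 1)`, `N ^ 2 = w ^ i`, then so are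
`M ⊗ B + N ⊗ J` and `M ⊗ I` with `i + 1` for `i`; the first pair is a symmetric conference matrix of
order `w + 1` and `I`, and a pair of order `l` gives the Hadamard matrix
`[[M + N, M - N], [M - N, - M - N]]` of order `2 l`.
-/

namespace Pool.Agent.Results.MP_d8b1b3_co.ConferenceTowerOrders

/-- There is `C` such that for all `n`, `v`, `t`, `i`, `j` with `v ≤ 2 ↑↑ n` (the power tower of `n`
twos), `2 ^ C ^ (n + 1) ≤ t` and `2 ^ t ∣ v + 1` there is a Hadamard matrix of order
`2 w ^ i (w + 1)` for `w = v ^ 2 ^ (j + 1)`. -/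
theorem result : ∃ C : ℕ, ∀ n v t i j w : ℕ, v ≤ (fun x : ℕ => 2 ^ x)^[n] 1 →
    2 ^ C ^ (n + 1) ≤ t → 2 ^ t ∣ v + 1 → w = v ^ 2 ^ (j + 1) →
    ∃ H : Matrix (Fin (2 * (w ^ i * (w + 1)))) (Fin (2 * (w ^ i * (w + 1)))) ℤ,
      (∀ x y, H x y = 1 ∨ H x y = -1) ∧
      H * H.transpose = ((2 * (w ^ i * (w + 1)) : ℕ) : ℤ) •
        (1 : Matrix (Fin (2 * (w ^ i * (w + 1)))) (Fin (2 * (w ^ i * (w + 1)))) ℤ) := by
  obtain ⟨C, _, h⟩ := Pool.Agent.H34CT.main
  refine ⟨C, fun n v t i j w hv ht hd hw => ?_⟩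
  subst hw
  exact h n v t i j hv ht hd

end Pool.Agent.Results.MP_d8b1b3_co.ConferenceTowerOrders
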